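import Pool.Agent.EVF.StmtsF
import Pool.Agent.EVF.StmtsH

/-! EVF, row FINF: one hundred percent of the integral points of a family, assembly. -/

set_option autoImplicit false

namespace Pool.Agent.EVF.H80

open MvPolynomial MeasureTheory Pool.Agent.EVF
open scoped ComplexOrder

/-- GM2 with a positive constant -/
def Gm2Pos : Prop := ∀ (r : ℕ) (s : Shape r), s.Good → ∃ C : ℝ, 0 < C ∧ ∀ N : Mat r,
  (∀ i j, N i j = N j i) →
  (∀ i j, ∀ e ∈ (N i j).support, 2 * (s.u * e 0 + s.v * e 1) ≤ s.D i + s.D j) →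
  Reduced s N → ∀ b Q θ : ℝ, 1 ≤ b → 1 ≤ Q → 0 < θ → θ ≤ 1 →
  (∀ i j e, |((coeff e (N i j) : ℤ) : ℝ)| * b ^ (s.α * e 0 + s.β * e 1) ≤
    Q * b ^ (s.m i + s.m j)) →
  θ * b ^ (2 * s.wt) ≤ |((coeff (topE s) (F N) : ℤ) : ℝ)| * b ^ (s.β * (s.deg / s.v)) →
  ∃ (n : ℕ) (bas : Fin n → Vec r) (I : Finset (Fin r × ℕ × ℕ)), (n : ℝ) ≤ C ∧ I.card = n ∧
    (∀ x ∈ I, s.Slot x) ∧ IsZBasis bas (Hol s N) ∧
    (∀ i j, Integrable (kernel N (bas i) (bas j))) ∧ (gram N bas).PosDef ∧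
    hW N bas ≤ (∑ x ∈ I, s.omega x) * Real.log b + C * (Real.log Q - Real.log θ) + C

theorem gm2_pos (h : Gm2Stmt) : Gm2Pos := by
  intro r s hs
  obtain ⟨C, hC⟩ := h r s hs
  refine ⟨max C 1, lt_of_lt_of_le one_pos (le_max_right _ _), ?_⟩
  intro N h1 h2 h3 b Q θ hb hQ hθ hθ1 h4 h5
  obtain ⟨n, bas, I, hn, hI1, hI2, hb1, hb2, hb3, hb4⟩ := hC N h1 h2 h3 b Q θ hb hQ hθ hθ1 h4 h5
  refine ⟨n, bas, I, hn.trans (le_max_left _ _), hI1, hI2, hb1, hb2, hb3, hb4.trans ?_⟩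
  have h7 : 0 ≤ Real.log Q := Real.log_nonneg hQ
  have h8 : Real.log θ ≤ 0 := Real.log_nonpos hθ.le hθ1
  have h9 : C * (Real.log Q - Real.log θ) ≤ max C 1 * (Real.log Q - Real.log θ) :=
    mul_le_mul_of_nonneg_right (le_max_left _ _) (by linarith)
  have h10 : C ≤ max C 1 := le_max_left _ _
  linarith

/-- the sets of slots -/
theorem slots_finite {r : ℕ} (s : Shape r) (hs : s.Good) :
    ∃ T : Finset (Finset (Fin r × ℕ × ℕ)), ∀ I : Finset (Fin r × ℕ × ℕ),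
      (∀ x ∈ I, s.Slot x) → I ∈ T := by
  classical
  refine ⟨(Finset.univ ×ˢ (Finset.range (2 * s.deg) ×ˢ Finset.range (2 * s.deg))).powerset,
    fun I hI => ?_⟩
  rw [Finset.mem_powerset]
  intro x hx
  have h1 : 2 * (s.u * (x.2.1 + 1) + s.v * (x.2.2 + 1)) < s.deg + s.D x.1 := hI x hx
  have h2 : s.D x.1 ≤ s.deg :=
    Finset.single_le_sum (f := s.D) (fun _ _ => Nat.zero_le _) (Finset.mem_univ x.1)
  have h3 : x.2.1 + 1 ≤ s.u * (x.2.1 + 1) := Nat.le_mul_of_pos_left _ hs.u_pos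
  have h4 : x.2.2 + 1 ≤ s.v * (x.2.2 + 1) := Nat.le_mul_of_pos_left _ hs.v_pos
  rw [Finset.mem_product, Finset.mem_product, Finset.mem_range, Finset.mem_range]
  exact ⟨Finset.mem_univ _, by omega, by omega⟩

/-- finitely many positive numbers have a positive lower bound -/
theorem pos_lower {ι : Type} (T : Finset ι) (f : ι → ℝ) :
    ∃ Δ : ℝ, 0 < Δ ∧ ∀ i ∈ T, 0 < f i → Δ ≤ f i := by
  classical
  induction T using Finset.induction_on with
  | empty => exact ⟨1, one_pos, fun i hi => absurd hi (Finset.notMem_empty i)⟩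
  | insert a T _ ih =>
    obtain ⟨Δ, h1, h2⟩ := ih
    by_cases ha : 0 < f a
    · refine ⟨min Δ (f a), lt_min h1 ha, fun i hi hf => ?_⟩
      rw [Finset.mem_insert] at hi
      rcases hi with rfl | hi
      · exact min_le_right _ _
      · exact (min_le_left _ _).trans (h2 i hi hf)
    · refine ⟨Δ, h1, fun i hi hf => ?_⟩
      rw [Finset.mem_insert] at hi
      rcases hi with rfl | hi
      · exact absurd hf ha
      · exact h2 i hi hf

theorem aeval_int {k : ℕ} (t : Fin k → ℤ) (ψ : MvPolynomial (Fin k) ℤ) :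
    aeval (fun l => ((t l : ℤ) : ℂ)) ψ = ((eval t ψ : ℤ) : ℂ) := by
  have h1 : (aeval (fun l => ((t l : ℤ) : ℂ)) ψ : ℂ) =
      eval₂ (Int.castRingHom ℂ) (fun l => (Int.castRingHom ℂ) (t l)) ψ := rfl
  rw [h1]
  have h2 := eval₂_comp_left (Int.castRingHom ℂ) (RingHom.id ℤ) t ψ
  rw [RingHom.comp_id] at h2
  exact h2.symm

theorem red_open (hRDC : RdcStmt) (hRDI : RdiStmt) {k r : ℕ} (s : Shape r) (W : Fin k → ℕ)
    (M : FMat k r) (hgood : s.Good) (hsh : FamShape s W M) (t₁ : Fin k → ℤ)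
    (h : Reduced s (spec M t₁)) : ∃ ψ : MvPolynomial (Fin k) ℤ, ψ ≠ 0 ∧
      ∀ t : Fin k → ℤ, eval t ψ ≠ 0 → Reduced s (spec M t) := by
  obtain ⟨ψ, h1, h2⟩ := hRDC k r s M hgood hsh.deg _ ((hRDI k r s M t₁).mp h)
  refine ⟨ψ, h1, fun t ht => (hRDI k r s M t).mpr (h2 _ ?_)⟩
  rw [aeval_int]
  exact_mod_cast ht

theorem nz (hREM : RemStmt) (hALM : AlmStmt) {k : ℕ} (W : Fin k → ℕ) (hW : ∀ i, 1 ≤ W i)
    (ψ : MvPolynomial (Fin k) ℤ) (hψ : ψ ≠ 0) : AlmostAll W (fun _ t => eval t ψ ≠ 0) := by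
  obtain ⟨a, ha⟩ := support_nonempty.mpr hψ
  refine (hALM k W).2.1 _ _ 1 (hREM k W ψ a (1 / 2) hW ha (by norm_num)) ?_
  intro B hB t _ h h0
  rw [h0] at h
  have h1 : (0 : ℝ) < (B : ℝ) ^ (((∑ l, W l * a l : ℕ) : ℝ) - 1 / 2) :=
    Real.rpow_pos_of_pos (by exact_mod_cast hB) _
  simp at h
  simp at h1
  linarith

theorem hW_zero {r : ℕ} (N : Mat r) (b : Fin 0 → Vec r) : hW N b = 0 := by
  unfold hW
  rw [Matrix.det_isEmpty]
  simp

theorem finf (hGM2' : Gm2Stmt) (hSPF : SpfStmt) (hRDC : RdcStmt) (hRDI : RdiStmt)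
    (hRDM : Rdm2Stmt) (hTOP : TopStmt) (hCBD : CbdStmt) (hALM : AlmStmt) (hREM : RemStmt)
    (hPRN : PrnStmt) (hSPC : SpcStmt) : IntegralPointsStmt := by
  have hGMN : Gm2Pos := gm2_pos hGM2'
  intro k r s W M hgood hW hsh htop hred m l φ hnod hdeg hass c hc0 hc
  obtain ⟨t₁, ht₁⟩ := hred
  have hφ0 : ∀ j, φ j ≠ 0 := by
    intro j h0
    have := hdeg j
    rw [h0, degreeOf_zero] at this
    omega
  have hirr : ∀ j, Irreducible (φ j) := fun j => (hPRN k r s M (φ j) (hnod j) (hφ0 j)).irreducible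
  have hnd : ∀ i j, i ≠ j → ¬ φ i ∣ φ j := fun i j hij h =>
    hass i j hij ((hirr i).associated_of_dvd (hirr j) h)
  have hspf : ∀ j, ∃ χ ψ : MvPolynomial (Fin k) ℤ, ¬ φ j ∣ χ ∧ ψ ≠ 0 ∧ ∀ t : Fin k → ℤ,
      eval t ψ ≠ 0 → ∀ p : ℕ, p.Prime → p ≠ 2 → (p : ℤ) ∣ eval t (φ j) →
      ¬ (p : ℤ) ∣ eval t χ → NodePrime s (spec M t) p := fun j => hSPF k r s M (φ j) (hnod j)
  choose χ ψ hχ hψ hnp using hspf
  obtain ⟨ψR, hψR, hR⟩ := red_open hRDC hRDI s W M hgood hsh t₁ ht₁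
  obtain ⟨C₁, hC₁, hcb⟩ := hCBD k r s W M hsh
  obtain ⟨C₂, hC₂, hg⟩ := hGMN r s hgood
  -- the constants
  set E : ℕ := ∑ j, min (degreeOf (l j) (φ j)) 2 * W (l j) with hE
  obtain ⟨T, hT⟩ := slots_finite s hgood
  obtain ⟨Δ, hΔ0, hΔ⟩ := pos_lower T (fun I => (E : ℝ) * c I.card - ∑ x ∈ I, s.omega x)
  set Cm : ℝ := ∑ I ∈ T, c I.card with hCm
  have hCm1 : ∀ I ∈ T, c I.card ≤ Cm := fun I hI =>
    Finset.single_le_sum (f := fun I : Finset (Fin r × ℕ × ℕ) => c I.card)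
      (fun J _ => hc0 _) hI
  have hCm0 : 0 ≤ Cm := Finset.sum_nonneg fun _ _ => hc0 _
  set ε₁ : ℝ := Δ / (2 * (Cm + C₂)) with hε₁
  have hε₁0 : 0 < ε₁ := by positivity
  have hε₁2 : ε₁ * (Cm + C₂) = Δ / 2 := by
    rw [hε₁]
    field_simp
  -- the properties of almost all members
  have hall1 := (hALM k W).2.2 m (fun j _ t => eval t (ψ j) ≠ 0)
    (fun j => nz hREM hALM W hW (ψ j) (hψ j))
  have hall2 := nz hREM hALM W hW ψR hψR
  have hall3 := hTOP k r s W M ε₁ hW hsh htop hε₁0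
  have hall4 := hRDM k W m l φ χ ε₁ hW hirr hdeg hnd hχ hε₁0
  have hall := (hALM k W).1 _ _ ((hALM k W).1 _ _ hall1 hall2) ((hALM k W).1 _ _ hall3 hall4)
  obtain ⟨B₁, hB₁⟩ : ∃ B₁ : ℕ, ∀ B : ℕ, B₁ ≤ B →
      C₂ * (Real.log C₁ + 1) ≤ Δ / 2 * Real.log B := by
    have h1 : Filter.Tendsto (fun B : ℕ => Δ / 2 * Real.log (B : ℝ)) Filter.atTop Filter.atTop :=
      (Filter.Tendsto.comp Real.tendsto_log_atTop tendsto_natCast_atTop_atTop).const_mul_atTop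
        (by positivity)
    obtain ⟨B₁, h2⟩ := (Filter.tendsto_atTop.mp h1 (C₂ * (Real.log C₁ + 1))).exists_forall_of_atTop
    exact ⟨B₁, fun B hB => h2 B hB⟩
  have hmain := (hALM k W).2.1 _ (fun _ t => FreyHolds s c (spec M t)) (max B₁ 1) hall ?_
  · exact hmain
  intro B hB t htB hP
  obtain ⟨⟨hP1, hP2⟩, hP3, P, hP4, hP5⟩ := hP
  have hB1 : 1 ≤ B := le_trans (le_max_right _ _) hB
  have hB1' : (1 : ℝ) ≤ B := by exact_mod_cast hB1
  have hB0 : (0 : ℝ) < B := by linarith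
  have hlogB : 0 ≤ Real.log B := Real.log_nonneg hB1'
  obtain ⟨hsym, hsupp, -, -⟩ := hSPC k r s W M hsh t
  have hredt := hR t hP2
  obtain ⟨n, bas, I, hn, hIc, hIs, hbas, hint, hpd, hh⟩ := hg (spec M t) hsym hsupp hredt B C₁
    ((B : ℝ) ^ (-ε₁)) hB1' hC₁ (by positivity)
    (Real.rpow_le_one_of_one_le_of_nonpos hB1' (by linarith)) (hcb B hB1 t htB) (by
      refine le_trans (le_of_eq ?_) hP3
      rw [← Real.rpow_natCast (B : ℝ) (2 * s.wt), ← Real.rpow_add hB0]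
      congr 1
      push_cast
      ring)
  refine ⟨hredt, n, bas, hbas, hint, hpd, P, ?_, ?_⟩
  · intro p hp
    obtain ⟨h1, h2, j, h3, h4⟩ := hP4 p hp
    exact hnp j t (hP1 j) p h1 h2 h3 h4
  · rcases Nat.eq_zero_or_pos n with h0 | h0
    · subst h0
      rw [hW_zero]
      apply mul_nonneg (hc0 0)
      apply Real.log_nonneg
      have h1 : 1 ≤ ∏ p ∈ P, p := Finset.one_le_prod' fun p hp => (hP4 p hp).1.one_lt.le
      exact_mod_cast h1
    · have hIne : I.Nonempty := by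
        rw [← Finset.card_pos]
        omega
      have hIT := hT I hIs
      have hlogP : ((E : ℝ) - ε₁) * Real.log B ≤ Real.log ((∏ p ∈ P, p : ℕ) : ℝ) := by
        rw [← Real.log_rpow hB0]
        exact Real.log_le_log (by positivity) hP5
      have hlogθ : Real.log ((B : ℝ) ^ (-ε₁)) = -ε₁ * Real.log B := Real.log_rpow hB0 _
      rw [hlogθ] at hh
      have h1 := hB₁ B (le_trans (le_max_left _ _) hB)
      have h2 : Δ ≤ (E : ℝ) * c I.card - ∑ x ∈ I, s.omega x :=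
        hΔ I hIT (sub_pos.mpr (hc I hIne hIs))
      have h3 := hCm1 I hIT
      rw [hIc] at h2 h3
      have hX : Δ / 2 ≤ c n * ((E : ℝ) - ε₁) - (∑ x ∈ I, s.omega x) - C₂ * ε₁ := by
        have h4 : ε₁ * (c n + C₂) ≤ Δ / 2 := by
          rw [← hε₁2]
          exact mul_le_mul_of_nonneg_left (by linarith) hε₁0.le
        linarith
      have h5 : Δ / 2 * Real.log B ≤
          (c n * ((E : ℝ) - ε₁) - (∑ x ∈ I, s.omega x) - C₂ * ε₁) * Real.log B :=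
        mul_le_mul_of_nonneg_right hX hlogB
      have h6 : c n * (((E : ℝ) - ε₁) * Real.log B) ≤
          c n * Real.log ((∏ p ∈ P, p : ℕ) : ℝ) :=
        mul_le_mul_of_nonneg_left hlogP (hc0 n)
      refine hh.trans (le_trans ?_ h6)
      linarith

end Pool.Agent.EVF.H80
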