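import Pool.Agent.Helper40_EVF.DET

/-! EVF, row DET2: weighted lower bound for a Gram determinant over an integral matrix. -/

set_option autoImplicit false

namespace Pool.Agent.EVF

open Matrix
open scoped ComplexOrder

/-- DET2. -/
def Det2Stmt : Prop := ∀ (n L : ℕ) (G : Matrix (Fin n) (Fin n) ℂ) (B : Fin L → Fin n → ℤ)
  (w : Fin L → ℝ) (K : ℝ), 0 < K → (∀ ι, 0 < w ι) → G.IsHermitian →
  (∀ a : Fin n → ℤ, (∀ ι, ∑ j, a j * B ι j = 0) → a = 0) →
  (∀ (v : Fin n → ℂ) (ι : Fin L),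
    ‖∑ j, star (v j) * ((B ι j : ℤ) : ℂ)‖ ^ 2 * w ι ≤ K * (star v ⬝ᵥ (G *ᵥ v)).re) →
  ∃ I : Finset (Fin L), I.card = n ∧ (∀ ι ∈ I, ∃ j, B ι j ≠ 0) ∧
    ∏ ι ∈ I, w ι ≤ (K * (L + 1)) ^ n * G.det.re

namespace H80

open Pool.Agent.EVF.H40

/-- independent rows of an integral matrix with trivial kernel -/
theorem indep_rows {n L : ℕ} (B : Fin L → Fin n → ℤ)
    (h : ∀ a : Fin n → ℤ, (∀ ι, ∑ j, a j * B ι j = 0) → a = 0) :
    ∃ f : Fin n → Fin L, (Matrix.of fun a j => B (f a) j).det ≠ 0 := by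
  classical
  set A : Matrix (Fin L) (Fin n) ℚ := (Matrix.of B).map (Int.castRingHom ℚ) with hA
  have hint : Function.Injective (Int.castRingHom ℚ) := Int.cast_injective
  -- the kernel over the rationals
  have hker : ∀ v : Fin n → ℚ, A *ᵥ v = 0 → v = 0 := by
    intro v hv
    have h1 : ((pint B).map (Int.castRingHom ℚ)) *ᵥ v = 0 := by
      have h2 : (pint B).map (Int.castRingHom ℚ) = Aᵀ * A := by
        unfold pint
        rw [Matrix.map_mul, ← Matrix.transpose_map]
      rw [h2, ← Matrix.mulVec_mulVec, hv, Matrix.mulVec_zero]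
    by_contra hv0
    have h3 : ((pint B).map (Int.castRingHom ℚ)).det = 0 :=
      Matrix.exists_mulVec_eq_zero_iff.mp ⟨v, hv0, h1⟩
    have h4 : ((pint B).map (Int.castRingHom ℚ)).det = Int.castRingHom ℚ (pint B).det :=
      (RingHom.map_det (Int.castRingHom ℚ) (pint B)).symm
    rw [h4] at h3
    exact pint_det B h (hint (by rw [h3, map_zero]))
  have hinj : Function.Injective A.mulVecLin := by
    rw [← LinearMap.ker_eq_bot, LinearMap.ker_eq_bot']
    intro v hv
    exact hker v hv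
  have hrank : Module.finrank ℚ (Submodule.span ℚ (Set.range A.row)) = n := by
    rw [← Matrix.rank_eq_finrank_span_row, Matrix.rank, LinearMap.finrank_range_of_inj hinj,
      Module.finrank_fin_fun]
  obtain ⟨g, hg1, -, hg3⟩ := Submodule.exists_fun_fin_finrank_span_eq ℚ (Set.range A.row)
  have hg1' : ∀ i, ∃ ι, A.row ι = g i := hg1
  choose f₀ hf₀ using hg1'
  refine ⟨fun a => f₀ (Fin.cast hrank.symm a), ?_⟩
  have hli : LinearIndependent ℚ (fun a : Fin n => A.row (f₀ (Fin.cast hrank.symm a))) := by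
    have h5 : (fun a : Fin n => A.row (f₀ (Fin.cast hrank.symm a))) =
        g ∘ (Fin.cast hrank.symm) := by
      funext a
      exact hf₀ _
    rw [h5]
    exact hg3.comp _ (Fin.cast_injective _)
  set M : Matrix (Fin n) (Fin n) ℤ := Matrix.of fun a j => B (f₀ (Fin.cast hrank.symm a)) j with hM
  have hrow : (M.map (Int.castRingHom ℚ)).row =
      fun a : Fin n => A.row (f₀ (Fin.cast hrank.symm a)) := by
    funext a j
    rfl
  rw [← hrow] at hli
  have hu : IsUnit (M.map (Int.castRingHom ℚ)) := Matrix.linearIndependent_rows_iff_isUnit.mp hli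
  have hd := (Matrix.isUnit_iff_isUnit_det _).mp hu
  intro h0
  have h6 : (M.map (Int.castRingHom ℚ)).det = Int.castRingHom ℚ M.det :=
    (RingHom.map_det (Int.castRingHom ℚ) M).symm
  rw [h6, h0, map_zero] at hd
  exact not_isUnit_zero hd

/-- comparison of determinants -/
theorem det_compare2 {n : ℕ} (G T : Matrix (Fin n) (Fin n) ℂ) (hG : G.IsHermitian)
    (p : ℝ) (hp : (Tᴴ).det * T.det = (p : ℂ)) (hp0 : 0 < p) (c : ℝ) (hc : 0 ≤ c)
    (h : ∀ v : Fin n → ℂ, c * ∑ i, ‖(T *ᵥ v) i‖ ^ 2 ≤ (star v ⬝ᵥ (G *ᵥ v)).re) :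
    c ^ n * p ≤ G.det.re := by
  have hT0 : T.det ≠ 0 := by
    intro h0
    rw [h0, mul_zero] at hp
    have : p = 0 := by exact_mod_cast hp.symm
    linarith
  have hu : IsUnit T.det := hT0.isUnit
  set S := T⁻¹ with hS
  have hTS : T * S = 1 := Matrix.mul_nonsing_inv T hu
  have hherm : (Sᴴ * G * S).IsHermitian := Matrix.isHermitian_conjTranspose_mul_mul S hG
  have h1 : ∀ w : Fin n → ℂ, c * ∑ i, ‖w i‖ ^ 2 ≤ (star w ⬝ᵥ ((Sᴴ * G * S) *ᵥ w)).re := by
    intro w
    have h2 := h (S *ᵥ w)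
    have h3 : star (S *ᵥ w) ⬝ᵥ (G *ᵥ (S *ᵥ w)) = star w ⬝ᵥ ((Sᴴ * G * S) *ᵥ w) := by
      rw [← Matrix.mulVec_mulVec, ← Matrix.mulVec_mulVec, Matrix.star_mulVec,
        ← Matrix.dotProduct_mulVec]
    rw [Matrix.mulVec_mulVec, hTS, Matrix.one_mulVec, h3] at h2
    exact h2
  have h7 := Helper90Frey.det_lower _ hherm c hc h1
  rw [Fintype.card_fin] at h7
  have h8 : (Sᴴ * G * S).det * (p : ℂ) = G.det := by
    rw [← hp, ← Matrix.det_mul]
    calc (Sᴴ * G * S).det * (Tᴴ * T).det = Sᴴ.det * G.det * S.det * (Tᴴ.det * T.det) := by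
          rw [Matrix.det_mul, Matrix.det_mul, Matrix.det_mul]
      _ = (Tᴴ.det * Sᴴ.det) * G.det * (T.det * S.det) := by ring
      _ = G.det := by
          rw [← Matrix.det_mul T S, hTS]
          rw [mul_comm (Tᴴ.det), ← Matrix.det_mul, ← Matrix.conjTranspose_mul, hTS]
          simp
  have h9 : (Sᴴ * G * S).det.re * p = G.det.re := by
    rw [← h8]
    simp
  rw [← h9]
  exact mul_le_mul_of_nonneg_right h7 hp0.le

theorem det2 : Det2Stmt := by
  classical
  intro n L G B w K hK hw hG hB h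
  obtain ⟨f, hf⟩ := indep_rows B hB
  set M : Matrix (Fin n) (Fin n) ℤ := Matrix.of fun a j => B (f a) j with hM
  have hfinj : Function.Injective f := by
    intro a b hab
    by_contra hne
    apply hf
    exact Matrix.det_zero_of_row_eq hne (by
      funext j
      simp [hM, hab])
  refine ⟨Finset.univ.image f, ?_, ?_, ?_⟩
  · rw [Finset.card_image_of_injective _ hfinj, Finset.card_univ, Fintype.card_fin]
  · intro ι hι
    obtain ⟨a, -, rfl⟩ := Finset.mem_image.mp hι
    by_contra hcon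
    push Not at hcon
    apply hf
    exact Matrix.det_eq_zero_of_row_eq_zero a (fun j => hcon j)
  rw [Finset.prod_image fun a _ b _ hab => hfinj hab]
  set T : Matrix (Fin n) (Fin n) ℂ :=
    Matrix.diagonal (fun a => ((√(w (f a)) : ℝ) : ℂ)) * M.map (Int.castRingHom ℂ) with hT
  have hTdet : T.det = ((∏ a, √(w (f a)) : ℝ) : ℂ) * ((M.det : ℤ) : ℂ) := by
    rw [hT, Matrix.det_mul, Matrix.det_diagonal]
    congr 1
    · push_cast
      rfl
    · exact (RingHom.map_det (Int.castRingHom ℂ) M).symm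
  set p : ℝ := (∏ a, w (f a)) * ((M.det : ℤ) : ℝ) ^ 2 with hp
  have hprod : (∏ a, √(w (f a))) * (∏ a, √(w (f a))) = ∏ a, w (f a) := by
    rw [← Finset.prod_mul_distrib]
    exact Finset.prod_congr rfl fun a _ => Real.mul_self_sqrt (hw _).le
  have hpdet : (Tᴴ).det * T.det = (p : ℂ) := by
    have hs : star (((∏ a, √(w (f a)) : ℝ) : ℂ) * ((M.det : ℤ) : ℂ)) =
        ((∏ a, √(w (f a)) : ℝ) : ℂ) * ((M.det : ℤ) : ℂ) := by
      rw [star_mul', star_intCast]
      congr 1
      exact Complex.conj_ofReal _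
    rw [Matrix.det_conjTranspose, hTdet, hs, hp, ← hprod, Complex.ofReal_mul, Complex.ofReal_mul,
      Complex.ofReal_pow, Complex.ofReal_intCast]
    ring
  have hM1 : (1 : ℝ) ≤ ((M.det : ℤ) : ℝ) ^ 2 := by
    have h1 : 1 ≤ M.det ^ 2 := by
      have : 0 < M.det ^ 2 := by positivity
      omega
    exact_mod_cast h1
  have hw0 : 0 < ∏ a, w (f a) := Finset.prod_pos fun a _ => hw _
  have hp0 : 0 < p := by
    rw [hp]
    positivity
  have hpw : ∏ a, w (f a) ≤ p := by
    rw [hp]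
    nlinarith
  set D : ℝ := K * (L + 1) with hD
  have hD0 : 0 < D := by positivity
  have hcmp : ∀ v : Fin n → ℂ, D⁻¹ * ∑ i, ‖(T *ᵥ v) i‖ ^ 2 ≤ (star v ⬝ᵥ (G *ᵥ v)).re := by
    intro v
    rw [inv_mul_le_iff₀ hD0]
    rcases Nat.eq_zero_or_pos n with h0 | h0
    · subst h0
      simp [dotProduct]
    have hrow : ∀ a : Fin n, ‖(T *ᵥ v) a‖ ^ 2 =
        ‖∑ j, star (v j) * ((B (f a) j : ℤ) : ℂ)‖ ^ 2 * w (f a) := by
      intro a
      have h2 : (T *ᵥ v) a = ((√(w (f a)) : ℝ) : ℂ) *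
          star (∑ j, star (v j) * ((B (f a) j : ℤ) : ℂ)) := by
        rw [hT, ← Matrix.mulVec_mulVec, Matrix.mulVec_diagonal]
        congr 1
        rw [star_sum]
        simp only [Matrix.mulVec, dotProduct]
        apply Finset.sum_congr rfl
        intro j _
        rw [star_mul', star_star]
        have h3 : star ((B (f a) j : ℤ) : ℂ) = ((B (f a) j : ℤ) : ℂ) := by simp
        rw [h3]
        simp [hM, mul_comm]
      rw [h2, norm_mul, norm_star, mul_pow, Complex.norm_real, Real.norm_eq_abs, sq_abs,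
        Real.sq_sqrt (hw _).le, mul_comm]
    have hform : 0 ≤ (star v ⬝ᵥ (G *ᵥ v)).re := by
      have h1 := h v (f ⟨0, h0⟩)
      have h2 : 0 ≤ K * (star v ⬝ᵥ (G *ᵥ v)).re :=
        le_trans (mul_nonneg (by positivity) (hw _).le) h1
      exact nonneg_of_mul_nonneg_right h2 hK
    have hnL : (n : ℝ) ≤ L := by
      have := Fintype.card_le_of_injective f hfinj
      rw [Fintype.card_fin, Fintype.card_fin] at this
      exact_mod_cast this
    calc ∑ i, ‖(T *ᵥ v) i‖ ^ 2 ≤ ∑ _i : Fin n, K * (star v ⬝ᵥ (G *ᵥ v)).re := by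
          apply Finset.sum_le_sum
          intro a _
          rw [hrow]
          exact h v (f a)
      _ = n * (K * (star v ⬝ᵥ (G *ᵥ v)).re) := by simp
      _ ≤ D * (star v ⬝ᵥ (G *ᵥ v)).re := by
          rw [hD]
          have h2 : 0 ≤ K * (star v ⬝ᵥ (G *ᵥ v)).re := by positivity
          nlinarith
  have hfin := det_compare2 G T hG p hpdet hp0 D⁻¹ (by positivity) hcmp
  have h5 : D⁻¹ ^ n * p ≤ G.det.re := hfin
  rw [inv_pow, inv_mul_le_iff₀ (by positivity)] at h5
  exact hpw.trans h5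

end H80

end Pool.Agent.EVF
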