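import Pool.Agent.Helper40_EVF.LOW

/-!
# Squad EVF, row LOW2: lower bound for the form, sharp weights (edit of row LOW)
-/

set_option autoImplicit false

namespace Pool.Agent.EVF

open MvPolynomial MeasureTheory Matrix
open scoped ComplexOrder

/-- LOW2 -/
def Low2Stmt : Prop := ∀ (r : ℕ) (s : Shape r), s.Good → ∃ (C : ℝ) (c : ℕ), 1 ≤ C ∧
  ∀ (N : Mat r) (b Q θ : ℝ), Shaped s (cmat N) → Sized s (cmat N) b Q θ → Reduced s N →
  ∀ (n : ℕ) (bas : Fin n → Vec r), (∀ j, bas j ∈ Hol s N) → ∀ (v : Fin n → ℂ) (i : Fin r)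
    (e : Fin 2 →₀ ℕ), ‖∑ j, star (v j) * ((coeff e (bas j i) : ℤ) : ℂ)‖ ^ 2 ≤
      C * (Q / θ) ^ c * b ^ (2 * s.omega (i, e 0, e 1)) * (star v ⬝ᵥ (gram N bas *ᵥ v)).re

end Pool.Agent.EVF

namespace Pool.Agent.EVF.H80

open MvPolynomial MeasureTheory Matrix
open scoped ComplexOrder
open Pool.Agent.EVF Pool.Agent.EVF.H40

/-- LOW2 -/
theorem low2 (hqfi : QfiStmt) (hext : ExtStmt) (hmes : MesStmt) : Low2Stmt := by
  intro r s hs
  obtain ⟨C₁, c, hC₁, hext'⟩ := hext r s hs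
  obtain ⟨c₀, hc₀, hdisc⟩ := Helper90Frey.disc_lower_scaled (2 * s.deg)
  refine ⟨max 1 (C₁ / c₀), c, le_max_left _ _, ?_⟩
  intro N b Q θ hN hS hred n bas hbas v i e
  set τ : ℝ := s.omega (i, e 0, e 1) with hτ
  set q := comb bas v with hq
  have hsm : Small s q := small_comb bas hbas v
  rw [← coeff_comb]
  obtain ⟨hint, hform, hpt⟩ := hqfi r s N hs hN hred n bas hbas v
  obtain ⟨hfin, _⟩ := hmes r s N hs hN hred
  have hae : ∀ᵐ x : ℂ, (Helper90Frey.rts (cmat N).det x).card = s.deg / s.v := by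
    rw [ae_iff]
    exact hfin.measure_zero volume
  have hqf0 : ∀ᵐ x : ℂ, 0 ≤ qf N bas v x := by
    filter_upwards [hae] with x hx
    obtain ⟨W, _, h2⟩ := hpt x hx
    rw [h2]
    exact Finset.sum_nonneg fun _ _ => by positivity
  rw [← hform]
  set I : ℝ := ∫ x, qf N bas v x with hI
  have hI0 : 0 ≤ I := integral_nonneg_of_ae hqf0
  have hb := hS.hb
  have hb0 : 0 < b := by linarith
  have hL0 : 0 ≤ (Q / θ) ^ c := by
    have := hS.hQ
    have := hS.hθ
    positivity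
  by_cases he : e ∈ (q i).support
  swap
  · rw [notMem_support_iff.mp he, norm_zero, zero_pow two_ne_zero]
    have : 0 ≤ max 1 (C₁ / c₀) := le_trans zero_le_one (le_max_left _ _)
    positivity
  have he0 : e 0 < 2 * s.deg := small_lt hs hsm i e he
  set ρ : ℝ := b ^ s.α with hρ
  have hρ0 : 0 < ρ := by positivity
  have h1 := hdisc (fun a : Fin (2 * s.deg) => coeff (expo a (e 1)) (q i)) ρ hρ0
  have h2 : c₀ * (‖coeff e (q i)‖ ^ 2 * (ρ ^ (e 0 + 1)) ^ 2) ≤
      ∫ z in Metric.ball (0 : ℂ) ρ, ‖(Helper90Frey.slice (q i) z).coeff (e 1)‖ ^ 2 := by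
    have h3 : ∀ z : ℂ, (Helper90Frey.slice (q i) z).coeff (e 1) =
        ∑ a : Fin (2 * s.deg), coeff (expo a (e 1)) (q i) * z ^ (a : ℕ) := fun z =>
      slice_coeff_sum (q i) z (e 1) _ (fun f hf => small_lt hs hsm i f hf)
    simp only [h3]
    refine le_trans ?_ h1
    apply mul_le_mul_of_nonneg_left _ hc₀.le
    have h4 := Finset.single_le_sum (f := fun a : Fin (2 * s.deg) =>
      ‖coeff (expo a (e 1)) (q i)‖ ^ 2 * (ρ ^ ((a : ℕ) + 1)) ^ 2) (fun _ _ => by positivity)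
      (Finset.mem_univ (⟨e 0, he0⟩ : Fin (2 * s.deg)))
    simp only [expo_self] at h4
    exact h4
  set K : ℝ := C₁ * (Q / θ) ^ c * (b ^ (s.wt + s.m i)) ^ 2 with hK
  have hK0 : 0 ≤ K := by
    have : 0 ≤ C₁ := by linarith
    positivity
  have h5 : (∫ z in Metric.ball (0 : ℂ) ρ, ‖(Helper90Frey.slice (q i) z).coeff (e 1)‖ ^ 2) *
      (b ^ (s.β * (e 1 + 1))) ^ 2 ≤ K * I := by
    have hcont : Continuous (fun z : ℂ => ‖(Helper90Frey.slice (q i) z).coeff (e 1)‖ ^ 2) := by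
      have h3 : ∀ z : ℂ, (Helper90Frey.slice (q i) z).coeff (e 1) =
          ∑ a : Fin (2 * s.deg), coeff (expo a (e 1)) (q i) * z ^ (a : ℕ) := fun z =>
        slice_coeff_sum (q i) z (e 1) _ (fun f hf => small_lt hs hsm i f hf)
      simp only [h3]
      fun_prop
    calc (∫ z in Metric.ball (0 : ℂ) ρ, ‖(Helper90Frey.slice (q i) z).coeff (e 1)‖ ^ 2) *
          (b ^ (s.β * (e 1 + 1))) ^ 2
        = ∫ z in Metric.ball (0 : ℂ) ρ, ‖(Helper90Frey.slice (q i) z).coeff (e 1)‖ ^ 2 *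
          (b ^ (s.β * (e 1 + 1))) ^ 2 := (integral_mul_const _ _).symm
      _ ≤ ∫ z in Metric.ball (0 : ℂ) ρ, K * qf N bas v z := by
          apply integral_mono_ae
          · have h6 : Continuous (fun z : ℂ => ‖(Helper90Frey.slice (q i) z).coeff (e 1)‖ ^ 2 *
                (b ^ (s.β * (e 1 + 1))) ^ 2) := hcont.mul continuous_const
            exact (h6.continuousOn.integrableOn_compact
              (isCompact_closedBall (0 : ℂ) ρ)).mono_set Metric.ball_subset_closedBall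
          · exact (hint.const_mul _).integrableOn
          · filter_upwards [ae_restrict_of_ae hae, ae_restrict_mem Metric.isOpen_ball.measurableSet]
              with x hx hxb
            rw [mem_ball_zero_iff] at hxb
            obtain ⟨W, hW1, hW2⟩ := hpt x hx
            rw [hW2]
            exact hext' (cmat N) b Q θ hN hS q hsm x hxb.le hx W hW1 i (e 1)
      _ = K * ∫ z in Metric.ball (0 : ℂ) ρ, qf N bas v z := integral_const_mul _ _
      _ ≤ K * I := by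
          apply mul_le_mul_of_nonneg_left _ hK0
          exact setIntegral_le_integral hint hqf0
  have h6 : c₀ * (‖coeff e (q i)‖ ^ 2 * (ρ ^ (e 0 + 1)) ^ 2) * (b ^ (s.β * (e 1 + 1))) ^ 2 ≤
      K * I := (mul_le_mul_of_nonneg_right h2 (by positivity)).trans h5
  -- the powers of `b`
  have h7 : (b ^ (s.wt + s.m i)) ≤ b ^ τ * (ρ ^ (e 0 + 1) * b ^ (s.β * (e 1 + 1))) := by
    have h8 : ρ ^ (e 0 + 1) * b ^ (s.β * (e 1 + 1)) =
        b ^ (s.α * (e 0 + 1) + s.β * (e 1 + 1)) := by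
      rw [hρ, ← pow_mul, ← pow_add]
    rw [h8, ← Real.rpow_natCast b (s.wt + s.m i), ← Real.rpow_natCast b (s.α * (e 0 + 1) + _),
      ← Real.rpow_add hb0]
    apply Real.rpow_le_rpow_of_exponent_le hb
    rw [hτ]
    unfold Shape.omega
    push_cast
    linarith
  set X : ℝ := ρ ^ (e 0 + 1) * b ^ (s.β * (e 1 + 1)) with hX
  have hX0 : 0 < X := by positivity
  have hbτ : b ^ (2 * τ) = (b ^ τ) ^ 2 := by
    rw [mul_comm, Real.rpow_mul hb0.le]
    norm_num
  have h12 : c₀ * ‖coeff e (q i)‖ ^ 2 * X ^ 2 ≤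
      C₁ * (Q / θ) ^ c * (b ^ τ) ^ 2 * I * X ^ 2 := by
    calc c₀ * ‖coeff e (q i)‖ ^ 2 * X ^ 2
        = c₀ * (‖coeff e (q i)‖ ^ 2 * (ρ ^ (e 0 + 1)) ^ 2) * (b ^ (s.β * (e 1 + 1))) ^ 2 := by
          rw [hX]
          ring
      _ ≤ K * I := h6
      _ ≤ C₁ * (Q / θ) ^ c * (b ^ τ * X) ^ 2 * I := by
          rw [hK]
          have : 0 ≤ C₁ := by linarith
          gcongr
      _ = _ := by ring
  have h13 : c₀ * ‖coeff e (q i)‖ ^ 2 ≤ C₁ * (Q / θ) ^ c * (b ^ τ) ^ 2 * I :=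
    le_of_mul_le_mul_right h12 (by positivity)
  rw [hbτ]
  calc ‖coeff e (q i)‖ ^ 2 ≤ (C₁ / c₀) * ((Q / θ) ^ c * (b ^ τ) ^ 2 * I) := by
        rw [div_mul_eq_mul_div, le_div_iff₀ hc₀]
        linarith
    _ ≤ max 1 (C₁ / c₀) * ((Q / θ) ^ c * (b ^ τ) ^ 2 * I) := by
        apply mul_le_mul_of_nonneg_right (le_max_right _ _)
        positivity
    _ = _ := by ring

end Pool.Agent.EVF.H80
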