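import Pool.Agent.Helper40_EVF.GMN
import Pool.Agent.Helper80_EVF.DET2
import Pool.Agent.Helper80_EVF.LOW2
import Pool.Agent.EVF.StmtsH

/-!
# Squad EVF, row GMN2: the Gram matrix and the height of one member, sharp weights
-/

set_option autoImplicit false

namespace Pool.Agent.EVF

open MvPolynomial MeasureTheory Matrix
open scoped ComplexOrder

/-- GMN2 -/
def Gmn2Stmt : Prop := ∀ (r : ℕ) (s : Shape r), s.Good → ∃ C : ℝ, ∀ N : Mat r,
  (∀ i j, N i j = N j i) →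
  (∀ i j, ∀ e ∈ (N i j).support, 2 * (s.u * e 0 + s.v * e 1) ≤ s.D i + s.D j) →
  Reduced s N → ∀ b Q θ : ℝ, 1 ≤ b → 1 ≤ Q → 0 < θ → θ ≤ 1 →
  (∀ i j e, |((coeff e (N i j) : ℤ) : ℝ)| * b ^ (s.α * e 0 + s.β * e 1) ≤
    Q * b ^ (s.m i + s.m j)) →
  θ * b ^ (2 * s.wt) ≤ |((coeff (topE s) (F N) : ℤ) : ℝ)| * b ^ (s.β * (s.deg / s.v)) →
  ∃ (n : ℕ) (bas : Fin n → Vec r) (I : Finset (Fin r × ℕ × ℕ)), (n : ℝ) ≤ C ∧
    IsZBasis bas (Hol s N) ∧
    (∀ i j, Integrable (kernel N (bas i) (bas j))) ∧ (gram N bas).PosDef ∧ I.card = n ∧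
    (∀ c ∈ I, s.Slot c) ∧
    hW N bas ≤ (∑ c ∈ I, s.omega c) * Real.log b + C * (Real.log Q - Real.log θ) + C

end Pool.Agent.EVF

namespace Pool.Agent.EVF.H80

open MvPolynomial MeasureTheory Matrix
open scoped ComplexOrder
open Pool.Agent.EVF Pool.Agent.EVF.H40

/-- GMN2 -/
theorem gmn2 (hlow : Low2Stmt) (hdet : DetStmt) (hdet2 : Det2Stmt) (hher : HerStmt)
    (hhsm : HsmStmt) (hzba : ZbaStmt) : Gmn2Stmt := by
  intro r s hs
  obtain ⟨C₂, hzba'⟩ := hzba r s hs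
  obtain ⟨C₁, c, hC₁, hlow'⟩ := hlow r s hs
  classical
  set T : Finset (Fin r × (Fin 2 →₀ ℕ)) := Finset.univ ×ˢ slots (2 * s.deg) with hT
  set L : ℕ := T.card with hL
  have hE : 0 ≤ Real.log (C₁ * (L + 1)) := by
    apply Real.log_nonneg
    have : (0 : ℝ) ≤ L := Nat.cast_nonneg _
    nlinarith
  refine ⟨|C₂| + |C₂| * c + |C₂| * Real.log (C₁ * (L + 1)), ?_⟩
  intro N hsymm hdeg hred b Q θ hb hQ hθ hθ1 hcoef htop
  have hb0 : 0 < b := by linarith
  have hQ0 : 0 < Q := by linarith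
  have hN : Shaped s (cmat N) := by
    refine ⟨fun i j => ?_, fun i j e he => hdeg i j e (support_cpx he), ?_⟩
    · rw [cmat_apply, cmat_apply, hsymm i j]
    · rw [cmat_det, coeff_cpx]
      intro h0
      have h1 : coeff (topE s) (F N) = 0 := by exact_mod_cast h0
      rw [h1] at htop
      have h2 : 0 < θ * b ^ (2 * s.wt) := by positivity
      simp at htop
      linarith
  have hS : Sized s (cmat N) b Q θ := by
    refine ⟨hb, hQ, hθ, hθ1, fun i j e => ?_, ?_⟩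
    · rw [cmat_apply, coeff_cpx, Complex.norm_intCast]
      exact hcoef i j e
    · rw [cmat_det, coeff_cpx, Complex.norm_intCast]
      exact htop
  obtain ⟨hint, S, hSm⟩ := hhsm r s N hs hN hred
  obtain ⟨n, bas, hn, hli, hspan⟩ := hzba' S (fun q hq => ((hSm q).mp hq).1)
  have hbas : ∀ j, bas j ∈ Hol s N := by
    intro j
    rw [← hSm, ← hspan]
    exact Submodule.subset_span ⟨j, rfl⟩
  have hC1pos : 0 < C₁ := by linarith
  set K₀ : ℝ := C₁ * (Q / θ) ^ c with hK₀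
  have hK₀0 : 0 < K₀ := by positivity
  set en := T.equivFin.symm with hen
  set ω : Fin L → ℝ := fun ι => s.omega ((en ι).1.1, (en ι).1.2 0, (en ι).1.2 1) with hω
  have hB : ∀ a : Fin n → ℤ,
      (∀ ι : Fin L, ∑ j, a j * coeff (en ι).1.2 (bas j (en ι).1.1) = 0) → a = 0 := by
    intro a ha
    have h1 : ∑ j, a j • bas j = 0 := by
      funext i
      rw [Finset.sum_apply, Pi.zero_apply]
      ext e
      rw [coeff_sum, coeff_zero]
      by_cases he : (i, e) ∈ T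
      · have h2 := ha (T.equivFin ⟨(i, e), he⟩)
        rw [hen, Equiv.symm_apply_apply] at h2
        rw [← h2]
        apply Finset.sum_congr rfl
        intro j _
        rw [Pi.smul_apply, coeff_smul, smul_eq_mul]
      · apply Finset.sum_eq_zero
        intro j _
        rw [Pi.smul_apply, coeff_smul, smul_eq_mul]
        have h2 : coeff e (bas j i) = 0 := by
          by_contra h3
          apply he
          rw [hT, Finset.mem_product]
          exact ⟨Finset.mem_univ _, hol_slots hs (hbas j) i e (mem_support_iff.mpr h3)⟩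
        rw [h2, mul_zero]
    funext j
    exact Fintype.linearIndependent_iff.mp hli a h1 j
  have hlow2 : ∀ (v : Fin n → ℂ) (ι : Fin L),
      ‖∑ j, star (v j) * ((coeff (en ι).1.2 (bas j (en ι).1.1) : ℤ) : ℂ)‖ ^ 2 ≤
      K₀ * b ^ (2 * ω ι) * (star v ⬝ᵥ (gram N bas *ᵥ v)).re := fun v ι =>
    hlow' N b Q θ hN hS hred n bas hbas v (en ι).1.1 (en ι).1.2
  have hω0 : ∀ ι, 0 < b ^ (2 * ω ι) := fun ι => Real.rpow_pos_of_pos hb0 _
  -- positive definiteness
  obtain ⟨τ, hτ⟩ : ∃ τ : ℝ, ∀ ι, ω ι ≤ τ := by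
    obtain ⟨τ, hτ⟩ := Finset.exists_le (Finset.univ.image ω)
    exact ⟨τ, fun ι => hτ _ (Finset.mem_image_of_mem _ (Finset.mem_univ ι))⟩
  have hform0 : ∀ v : Fin n → ℂ, ∀ _ι : Fin L, 0 ≤ (star v ⬝ᵥ (gram N bas *ᵥ v)).re := by
    intro v ι
    have h1 := hlow2 v ι
    have h2 : 0 ≤ K₀ * b ^ (2 * ω ι) * (star v ⬝ᵥ (gram N bas *ᵥ v)).re :=
      le_trans (by positivity) h1
    exact nonneg_of_mul_nonneg_right h2 (mul_pos hK₀0 (hω0 ι))
  obtain ⟨hpd, -⟩ := hdet n L (gram N bas)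
    (fun ι j => coeff (en ι).1.2 (bas j (en ι).1.1)) (K₀ * b ^ (2 * τ))
    (mul_pos hK₀0 (Real.rpow_pos_of_pos hb0 _)) (hher r n N bas) hB (by
      intro v ι
      refine (hlow2 v ι).trans ?_
      apply mul_le_mul_of_nonneg_right _ (hform0 v ι)
      apply mul_le_mul_of_nonneg_left _ hK₀0.le
      apply Real.rpow_le_rpow_of_exponent_le hb
      linarith [hτ ι])
  -- the determinant
  obtain ⟨I, hIc, hI1, hI2⟩ := hdet2 n L (gram N bas)
    (fun ι j => coeff (en ι).1.2 (bas j (en ι).1.1)) (fun ι => (b ^ (2 * ω ι))⁻¹) K₀ hK₀0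
    (fun ι => inv_pos.mpr (hω0 ι)) (hher r n N bas) hB (by
      intro v ι
      have h1 := hlow2 v ι
      calc ‖∑ j, star (v j) * ((coeff (en ι).1.2 (bas j (en ι).1.1) : ℤ) : ℂ)‖ ^ 2 *
            (b ^ (2 * ω ι))⁻¹ ≤
            (K₀ * b ^ (2 * ω ι) * (star v ⬝ᵥ (gram N bas *ᵥ v)).re) * (b ^ (2 * ω ι))⁻¹ :=
            mul_le_mul_of_nonneg_right h1 (inv_pos.mpr (hω0 ι)).le
        _ = K₀ * (star v ⬝ᵥ (gram N bas *ᵥ v)).re := by
            have := (hω0 ι).ne'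
            field_simp)
  set g : Fin L → Fin r × ℕ × ℕ := fun ι => ((en ι).1.1, (en ι).1.2 0, (en ι).1.2 1) with hg
  have hginj : Function.Injective g := by
    intro ι κ h
    have h1 := (Prod.mk.inj h).1
    have h2 := (Prod.mk.inj (Prod.mk.inj h).2)
    have h3 : (en ι).1.2 = (en κ).1.2 := by
      rw [← expo2_self (en ι).1.2, ← expo2_self (en κ).1.2, h2.1, h2.2]
    have h4 : (en ι).1 = (en κ).1 := Prod.ext h1 h3
    exact en.injective (Subtype.ext h4)
  have habs : (n : ℝ) ≤ |C₂| := hn.trans (le_abs_self _)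
  have hA0 : 0 ≤ |C₂| := abs_nonneg _
  have hl0 : 0 ≤ Real.log Q - Real.log θ := by
    have h1 := Real.log_nonneg hQ
    have h2 := Real.log_nonpos hθ.le hθ1
    linarith
  refine ⟨n, bas, I.image g, ?_, ⟨hli, fun q => ?_⟩, fun i j => hint _ (hbas i) _ (hbas j), hpd,
    ?_, ?_, ?_⟩
  · have : 0 ≤ |C₂| * (c : ℝ) := by positivity
    have : 0 ≤ |C₂| * Real.log (C₁ * (L + 1)) := by positivity
    linarith
  · rw [← hSm, hspan]
  · rw [Finset.card_image_of_injective _ hginj, hIc]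
  · intro x hx
    obtain ⟨ι, hι, rfl⟩ := Finset.mem_image.mp hx
    obtain ⟨j, hj⟩ := hI1 ι hι
    exact (hbas j).1 (en ι).1.1 (en ι).1.2 (mem_support_iff.mpr hj)
  · rw [Finset.sum_image fun a _ b _ hab => hginj hab]
    have hd : 0 < (gram N bas).det.re := by
      have h1 := hpd.det_pos
      rw [Complex.lt_def] at h1
      exact h1.1
    have hKL : 0 < K₀ * (L + 1) := by positivity
    have hprod : ∏ ι ∈ I, (b ^ (2 * ω ι))⁻¹ = (b ^ (2 * ∑ ι ∈ I, ω ι))⁻¹ := by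
      rw [Finset.prod_inv_distrib]
      congr 1
      rw [Finset.mul_sum]
      exact (Real.rpow_sum_of_pos hb0 _ _).symm
    rw [hprod] at hI2
    have h1 := Real.log_le_log (inv_pos.mpr (Real.rpow_pos_of_pos hb0 _)) hI2
    rw [Real.log_inv, Real.log_rpow hb0, Real.log_mul (by positivity) hd.ne', Real.log_pow] at h1
    have h2 : Real.log (K₀ * (L + 1)) =
        Real.log (C₁ * (L + 1)) + c * (Real.log Q - Real.log θ) := by
      have hL1 : (0 : ℝ) < (L : ℝ) + 1 := by positivity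
      rw [hK₀, Real.log_mul (by positivity) hL1.ne',
        Real.log_mul hC1pos.ne' (by positivity), Real.log_pow, Real.log_div hQ0.ne' hθ.ne',
        Real.log_mul hC1pos.ne' hL1.ne']
      ring
    rw [h2] at h1
    unfold hW
    have hn0 : (0 : ℝ) ≤ n := Nat.cast_nonneg _
    have h3 : (n : ℝ) * Real.log (C₁ * (L + 1)) ≤ |C₂| * Real.log (C₁ * (L + 1)) :=
      mul_le_mul_of_nonneg_right habs hE
    have h4 : (n : ℝ) * (c * (Real.log Q - Real.log θ)) ≤
        |C₂| * (c * (Real.log Q - Real.log θ)) := by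
      apply mul_le_mul_of_nonneg_right habs
      positivity
    have h5 : 0 ≤ (|C₂| + |C₂| * Real.log (C₁ * (L + 1))) * (Real.log Q - Real.log θ) := by
      positivity
    have h6 : 0 ≤ |C₂| * c := by positivity
    have h7 : 0 ≤ (n : ℝ) * Real.log (C₁ * (L + 1)) := by positivity
    have h8 : 0 ≤ |C₂| * (c * (Real.log Q - Real.log θ)) := by positivity
    have h9 : ∑ ι ∈ I, s.omega (g ι) = ∑ ι ∈ I, ω ι := rfl
    rw [h9]
    nlinarith

/-- GM2, with the statement of file H -/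
theorem gm2 (hlow : Low2Stmt) (hdet : DetStmt) (hdet2 : Det2Stmt) (hher : HerStmt)
    (hhsm : HsmStmt) (hzba : ZbaStmt) : Gm2Stmt := by
  intro r s hs
  obtain ⟨C, hC⟩ := gmn2 hlow hdet hdet2 hher hhsm hzba r s hs
  refine ⟨C, ?_⟩
  intro N h1 h2 h3 b Q θ hb hQ hθ hθ1 h4 h5
  obtain ⟨n, bas, I, hn, hb1, hb2, hb3, hI1, hI2, hb4⟩ := hC N h1 h2 h3 b Q θ hb hQ hθ hθ1 h4 h5
  exact ⟨n, bas, I, hn, hI1, hI2, hb1, hb2, hb3, hb4⟩

end Pool.Agent.EVF.H80
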