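import Pool.Agent.Helper80_EVF.RDG

/-! EVF, row RDM2: the radical lemma for several polynomials and several directions. -/

set_option autoImplicit false

namespace Pool.Agent.EVF

open MvPolynomial
open Pool.Agent.RAD (Loc)
open Pool.Agent.Helper5Frey (partRad)

namespace H80

theorem degreeOf_mul_zero {k : ℕ} (l : Fin k) (p q : MvPolynomial (Fin k) ℤ)
    (hp : degreeOf l p = 0) (hq : degreeOf l q = 0) : degreeOf l (p * q) = 0 := by
  have := degreeOf_mul_le l p q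
  omega

theorem degreeOf_prod_zero {k : ℕ} {ι : Type} (l : Fin k) (s : Finset ι)
    (f : ι → MvPolynomial (Fin k) ℤ) (hf : ∀ j, degreeOf l (f j) = 0) :
    degreeOf l (∏ j ∈ s, f j) = 0 := by
  classical
  induction s using Finset.induction_on with
  | empty =>
    rw [Finset.prod_empty]
    have := degreeOf_C (1 : ℤ) l
    rwa [C_1] at this
  | insert a s ha ih =>
    rw [Finset.prod_insert ha]
    exact degreeOf_mul_zero l _ _ (hf a) ih

theorem rdm2 (hLOC : LocStmt) (hBEZ : BezStmt) (hRDG : RdgStmt) (hALM : AlmStmt) : Rdm2Stmt := by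
  classical
  intro k W m l φ χ ε hW hirr hdeg hnd hχ hε
  have h1 : ∀ j, ∃ ρ : MvPolynomial (Fin k) ℤ, ρ ≠ 0 ∧ degreeOf (l j) ρ = 0 ∧
      ∀ (t : Fin k → ℤ) (K : ℕ), eval t ρ ≠ 0 → eval t ρ ∣ (K : ℤ) →
      (slice (l j) t (φ j)).natDegree = degreeOf (l j) (φ j) ∧
      ((slice (l j) t (φ j)).map (Int.castRingHom ℚ)).Separable ∧
      Loc (slice (l j) t (φ j)) K :=
    fun j => hLOC k (l j) (φ j) (hirr j) (hdeg j)
  choose ρ hρ0 hρl hρ using h1
  have h2 : ∀ j, ∃ A B σ : MvPolynomial (Fin k) ℤ, σ ≠ 0 ∧ degreeOf (l j) σ = 0 ∧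
      A * φ j + B * χ j = σ := fun j => hBEZ k (l j) (φ j) (χ j) (hirr j) (hdeg j) (hχ j)
  choose A₁ B₁ σ hσ0 hσl hσ using h2
  have h3 : ∀ i j, ∃ A B σ : MvPolynomial (Fin k) ℤ, σ ≠ 0 ∧ degreeOf (l i) σ = 0 ∧
      (i ≠ j → A * φ i + B * φ j = σ) := by
    intro i j
    by_cases hij : i = j
    · refine ⟨0, 0, 1, one_ne_zero, ?_, fun h => absurd hij h⟩
      have := degreeOf_C (1 : ℤ) (l i)
      rwa [C_1] at this
    · obtain ⟨A, B, τ, h4, h5, h6⟩ := hBEZ k (l i) (φ i) (φ j) (hirr i) (hdeg i) (hnd i j hij)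
      exact ⟨A, B, τ, h4, h5, fun _ => h6⟩
  choose A₂ B₂ τ hτ0 hτl hτ using h3
  set κ : Fin m → MvPolynomial (Fin k) ℤ := fun i => C 2 * ρ i * σ i * ∏ j, τ i j with hκ
  have hC2 : (C 2 : MvPolynomial (Fin k) ℤ) ≠ 0 := by
    rw [Ne, C_eq_zero]
    norm_num
  have hκ0 : ∀ i, κ i ≠ 0 := fun i =>
    mul_ne_zero (mul_ne_zero (mul_ne_zero hC2 (hρ0 i)) (hσ0 i))
      (Finset.prod_ne_zero_iff.mpr fun j _ => hτ0 i j)
  have hκl : ∀ i, degreeOf (l i) (κ i) = 0 := fun i =>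
    degreeOf_mul_zero _ _ _ (degreeOf_mul_zero _ _ _ (degreeOf_mul_zero _ _ _ (degreeOf_C 2 (l i))
      (hρl i)) (hσl i)) (degreeOf_prod_zero _ _ _ fun j => hτl i j)
  -- divisibility of the values
  have hdρ : ∀ (t : Fin k → ℤ) i, eval t (ρ i) ∣ eval t (κ i) := by
    intro t i
    apply (MvPolynomial.eval t).map_dvd
    exact Dvd.dvd.mul_right (Dvd.dvd.mul_right (Dvd.dvd.mul_left (dvd_refl _) _) _) _
  have hdσ : ∀ (t : Fin k → ℤ) i, eval t (σ i) ∣ eval t (κ i) := by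
    intro t i
    apply (MvPolynomial.eval t).map_dvd
    exact Dvd.dvd.mul_right (Dvd.dvd.mul_left (dvd_refl _) _) _
  have hdτ : ∀ (t : Fin k → ℤ) i j, eval t (τ i j) ∣ eval t (κ i) := by
    intro t i j
    apply (MvPolynomial.eval t).map_dvd
    exact Dvd.dvd.mul_left (Finset.dvd_prod_of_mem (fun j => τ i j) (Finset.mem_univ j)) _
  have hd2 : ∀ (t : Fin k → ℤ) i, (2 : ℤ) ∣ eval t (κ i) := by
    intro t i
    simp only [hκ, map_mul, eval_C]
    exact Dvd.dvd.mul_right (Dvd.dvd.mul_right (Dvd.dvd.mul_right (dvd_refl _) _) _) _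
  set S₀ : ℝ := ∑ j, (W (l j) : ℝ) with hS₀
  have hS₀0 : 0 ≤ S₀ := Finset.sum_nonneg fun _ _ => by positivity
  set ε' : ℝ := ε / (S₀ + 1) with hε'
  have hε'0 : 0 < ε' := by positivity
  have hall := (hALM k W).2.2 m (fun j B t => eval t (κ j) ≠ 0 ∧ eval t (φ j) ≠ 0 ∧
    (B : ℝ) ^ ((W (l j) : ℝ) * (((min (degreeOf (l j) (φ j)) 2 : ℕ) : ℝ) - ε')) ≤
      (partRad (eval t (κ j)).natAbs (eval t (φ j)).natAbs : ℝ)) (by
    intro j
    apply hRDG k W (l j) (φ j) (κ j) ε' hW (hdeg j) (hκ0 j) (hκl j) hε'0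
    intro t ht
    apply hρ j t
    · intro h0
      apply ht
      exact zero_dvd_iff.mp (h0 ▸ hdρ t j)
    · rw [Int.dvd_natAbs]
      exact hdρ t j)
  refine (hALM k W).2.1 _ _ 1 hall ?_
  intro B hB t _ hP
  set S : Fin m → Finset ℕ := fun j =>
    (eval t (φ j)).natAbs.primeFactors.filter (fun p => ¬ p ∣ (eval t (κ j)).natAbs) with hS
  have hmem : ∀ j p, p ∈ S j → p.Prime ∧ (p : ℤ) ∣ eval t (φ j) ∧
      ¬ (p : ℤ) ∣ eval t (κ j) := by
    intro j p hp
    rw [hS, Finset.mem_filter] at hp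
    refine ⟨Nat.prime_of_mem_primeFactors hp.1, ?_, ?_⟩
    · rw [← Int.dvd_natAbs, Int.natCast_dvd_natCast]
      exact Nat.dvd_of_mem_primeFactors hp.1
    · intro h
      apply hp.2
      rw [← Int.natCast_dvd_natCast, Int.dvd_natAbs]
      exact h
  refine ⟨Finset.univ.biUnion S, ?_, ?_⟩
  · intro p hp
    rw [Finset.mem_biUnion] at hp
    obtain ⟨j, -, hj⟩ := hp
    obtain ⟨hp1, hp2, hp3⟩ := hmem j p hj
    refine ⟨hp1, ?_, j, hp2, ?_⟩
    · rintro rfl
      exact hp3 (hd2 t j)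
    · intro hp4
      apply hp3
      refine dvd_trans ?_ (hdσ t j)
      rw [← hσ j, map_add, map_mul, map_mul]
      exact dvd_add (Dvd.dvd.mul_left hp2 _) (Dvd.dvd.mul_left hp4 _)
  · rw [Finset.prod_biUnion]
    · have hpr : ∀ j, (∏ p ∈ S j, p) =
        partRad (eval t (κ j)).natAbs (eval t (φ j)).natAbs := fun j => rfl
      simp only [hpr]
      rw [Nat.cast_prod]
      have hB1 : (1 : ℝ) ≤ B := by exact_mod_cast hB
      have hB0 : (0 : ℝ) < B := by linarith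
      calc (B : ℝ) ^ (((∑ j, min (degreeOf (l j) (φ j)) 2 * W (l j) : ℕ) : ℝ) - ε) ≤
            (B : ℝ) ^ (∑ j, (W (l j) : ℝ) *
              (((min (degreeOf (l j) (φ j)) 2 : ℕ) : ℝ) - ε')) := by
            apply Real.rpow_le_rpow_of_exponent_le hB1
            have h5 : ε' * S₀ ≤ ε := by
              rw [hε', div_mul_eq_mul_div, div_le_iff₀ (by positivity)]
              nlinarith
            have h6 : (∑ j, (W (l j) : ℝ) * (((min (degreeOf (l j) (φ j)) 2 : ℕ) : ℝ) - ε')) =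
                ((∑ j, min (degreeOf (l j) (φ j)) 2 * W (l j) : ℕ) : ℝ) - ε' * S₀ := by
              rw [hS₀, Finset.mul_sum, Nat.cast_sum, ← Finset.sum_sub_distrib]
              refine Finset.sum_congr rfl fun j _ => ?_
              rw [Nat.cast_mul]
              ring
            rw [h6]
            linarith
        _ = ∏ j : Fin m, (B : ℝ) ^ ((W (l j) : ℝ) *
              (((min (degreeOf (l j) (φ j)) 2 : ℕ) : ℝ) - ε')) := Real.rpow_sum_of_pos hB0 _ _
        _ ≤ ∏ j : Fin m, ((partRad (eval t (κ j)).natAbs (eval t (φ j)).natAbs : ℕ) : ℝ) := by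
            apply Finset.prod_le_prod
            · intro j _
              positivity
            · intro j _
              exact (hP j).2.2
    · intro i _ j _ hij
      rw [Function.onFun, Finset.disjoint_left]
      intro p hpi hpj
      obtain ⟨-, h5, h6⟩ := hmem i p hpi
      obtain ⟨-, h7, -⟩ := hmem j p hpj
      apply h6
      refine dvd_trans ?_ (hdτ t i j)
      rw [← hτ i j hij, map_add, map_mul, map_mul]
      exact dvd_add (Dvd.dvd.mul_left h5 _) (Dvd.dvd.mul_left h7 _)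

end H80

end Pool.Agent.EVF
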