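import Pool.Agent.EVF.StmtsF

/-! EVF, row TOP: the coefficient of `y ^ (deg / v)` is large. -/

set_option autoImplicit false

namespace Pool.Agent.EVF.H80

open MvPolynomial Pool.Agent.EVF

theorem top (hREM : RemStmt) (hSPC : SpcStmt) (hALM : AlmStmt) : TopStmt := by
  intro k r s W M ε hW hsh htop hε
  obtain ⟨a, ha, hwt⟩ := htop
  refine (hALM k W).2.1 _ _ 1 (hREM k W (coeff (topE s) M.det) a ε hW ha hε) ?_
  intro B hB t _ h
  have hB0 : (0 : ℝ) < B := by exact_mod_cast hB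
  rw [(hSPC k r s W M hsh t).2.2.2 (topE s)]
  refine le_trans (le_of_eq ?_) (mul_le_mul_of_nonneg_right h (by positivity))
  rw [← Real.rpow_natCast (B : ℝ) (s.β * (s.deg / s.v)), ← Real.rpow_add hB0]
  congr 1
  have h1 : ((∑ l, W l * a l : ℕ) : ℝ) + ((s.β * (s.deg / s.v) : ℕ) : ℝ) = 2 * s.wt := by
    exact_mod_cast hwt
  linarith

end Pool.Agent.EVF.H80
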