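import Pool.Agent.Helper68_EVF.SPZ
import Pool.Agent.Helper68_EVF.SPN
import Pool.Agent.Helper68_EVF.NOP
import Pool.Agent.Helper68_EVF.SPF
import Pool.Agent.Helper68_EVF.RDI
import Pool.Agent.Helper1_EVF.RES
import Pool.Agent.Helper31_EVF.RDC
import Pool.Agent.Helper19_EVF.CARD
import Pool.Agent.Helper64_EVF.ALM
import Pool.Agent.Helper52_EVF.SLI
import Pool.Agent.Helper72_EVF.LAG
import Pool.Agent.Helper72_EVF.SLC
import Pool.Agent.Helper75_EVF.COF
import Pool.Agent.Helper75_EVF.REM
import Pool.Agent.Helper44_EVF.BND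
import Pool.Agent.Helper79_EVF.BEZ
import Pool.Agent.Helper59_EVF.RDA
import Pool.Agent.Helper80_EVF.RDM2
import Pool.Agent.Helper80_EVF.GMN2
import Pool.Agent.Helper40_EVF.FinG
import Pool.Agent.Helper7_EVF.LOC
import Pool.Agent.Helper20_EVF.SPC
import Pool.Agent.Helper2_EVF.CBD
import Pool.Agent.Helper80_EVF.TOP
import Pool.Agent.Helper13_EVF.PRNrow
import Pool.Agent.Helper80_EVF.FINF
import Pool.Agent.Helper94_Rad.Final

/-! EVF, part F: closure of the rows. -/

set_option autoImplicit false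

namespace Pool.Agent.EVF.H80

open Pool.Agent.EVF

/-- the Gram matrix and the height of one member, sharp weights -/
theorem gm2_all : Gm2Stmt :=
  gm2 (low2 (H41.qfi ker_all hsm_all) (ext_of H41.wsz_) mes_all) H40.det det2 H40.her hsm_all
    H44.zba

/-- the theorem on integral points -/
theorem integral_points : IntegralPointsStmt := by
  have hCARD : CardStmt := H19.card
  have hALM : AlmStmt := H64.alm hCARD
  have hSLI : SliStmt := H52.sli hCARD
  have hLAG : LagStmt := H72.lag
  have hSLC : SlcStmt := H72.slc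
  have hCOF : CofStmt := H75.cof
  have hREM : RemStmt := H75.rem hSLI hLAG hSLC
  have hBND : BndStmt := H44.bnd
  have hBEZ : BezStmt := H79.bez H1.res
  have hLOC : LocStmt := H7.loc hBEZ hSLC hCOF
  have hRDA : RdaStmt := H59.rda Pool.Agent.RAD.radical_lemma hREM hBND hSLI hSLC hCOF
  have hRDG : RdgStmt := rdg hRDA hALM hSLC hCOF
  have hRDM : Rdm2Stmt := rdm2 hLOC hBEZ hRDG hALM
  have hSPC : SpcStmt := H20.spc
  have hCBD : CbdStmt := H2.cbd hBND hSPC
  have hTOP : TopStmt := top hREM hSPC hALM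
  have hSPF : SpfStmt := H68.spf (H68.spn H68.spz) H68.nop
  exact finf gm2_all hSPF H31.rdc H68.rdi hRDM hTOP hCBD hALM hREM H13.prn hSPC

end Pool.Agent.EVF.H80
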