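import Pool.Agent.EVF.StmtsF

/-! EVF, row RDG: the radical lemma for one polynomial of degree at least one in `t_l`. -/

set_option autoImplicit false

namespace Pool.Agent.EVF

open MvPolynomial
open Pool.Agent.RAD (Loc)
open Pool.Agent.Helper5Frey (partRad)

namespace H80

theorem partRad_mul_le (K a b : ℕ) (ha : a ≠ 0) (hb : b ≠ 0) :
    partRad K (a * b) ≤ partRad K a * b := by
  classical
  have h1 : (a * b).primeFactors.filter (fun p => ¬ p ∣ K) ⊆
      a.primeFactors.filter (fun p => ¬ p ∣ K) ∪ b.primeFactors.filter (fun p => ¬ p ∣ K) := by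
    intro p hp
    rw [Finset.mem_filter, Nat.primeFactors_mul ha hb, Finset.mem_union] at hp
    rw [Finset.mem_union, Finset.mem_filter, Finset.mem_filter]
    rcases hp.1 with h | h
    · exact Or.inl ⟨h, hp.2⟩
    · exact Or.inr ⟨h, hp.2⟩
  have hpos : ∀ (s : Finset ℕ), (∀ p ∈ s, 1 ≤ p) → 1 ≤ ∏ p ∈ s, p := fun s hs =>
    Finset.one_le_prod' hs
  have hpr : ∀ (m : ℕ), ∀ p ∈ m.primeFactors.filter (fun p => ¬ p ∣ K), 1 ≤ p := fun m p hp =>
    (Nat.prime_of_mem_primeFactors (Finset.mem_filter.mp hp).1).one_lt.le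
  have h2 : partRad K (a * b) ≤ ∏ p ∈ a.primeFactors.filter (fun p => ¬ p ∣ K) ∪
      b.primeFactors.filter (fun p => ¬ p ∣ K), p := by
    unfold partRad
    apply Finset.prod_le_prod_of_subset_of_one_le' h1
    intro p hp _
    rw [Finset.mem_union] at hp
    rcases hp with h | h
    · exact hpr a p h
    · exact hpr b p h
  have h3 : (∏ p ∈ a.primeFactors.filter (fun p => ¬ p ∣ K) ∪
      b.primeFactors.filter (fun p => ¬ p ∣ K), p) *
      (∏ p ∈ a.primeFactors.filter (fun p => ¬ p ∣ K) ∩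
      b.primeFactors.filter (fun p => ¬ p ∣ K), p) = partRad K a * partRad K b :=
    Finset.prod_union_inter
  have h4 : 1 ≤ ∏ p ∈ a.primeFactors.filter (fun p => ¬ p ∣ K) ∩
      b.primeFactors.filter (fun p => ¬ p ∣ K), p :=
    hpos _ fun p hp => hpr a p (Finset.mem_inter.mp hp).1
  have h5 : partRad K b ≤ b := by
    refine Nat.le_of_dvd (Nat.pos_of_ne_zero hb) ?_
    unfold partRad
    exact (Finset.prod_dvd_prod_of_subset _ _ _ (Finset.filter_subset _ _)).trans
      (Nat.prod_primeFactors_dvd b)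
  calc partRad K (a * b) ≤ _ := h2
    _ ≤ (∏ p ∈ a.primeFactors.filter (fun p => ¬ p ∣ K) ∪
      b.primeFactors.filter (fun p => ¬ p ∣ K), p) *
      (∏ p ∈ a.primeFactors.filter (fun p => ¬ p ∣ K) ∩
      b.primeFactors.filter (fun p => ¬ p ∣ K), p) := Nat.le_mul_of_pos_right _ h4
    _ = partRad K a * partRad K b := h3
    _ ≤ partRad K a * b := Nat.mul_le_mul_left _ h5

theorem partRad_anti (K K' m : ℕ) (h : K ∣ K') : partRad K' m ≤ partRad K m := by
  unfold partRad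
  apply Finset.prod_le_prod_of_subset_of_one_le'
  · intro p hp
    rw [Finset.mem_filter] at hp ⊢
    exact ⟨hp.1, fun hd => hp.2 (hd.trans h)⟩
  · intro p hp _
    exact (Nat.prime_of_mem_primeFactors (Finset.mem_filter.mp hp).1).one_lt.le

theorem slice_mul {k : ℕ} (l : Fin k) (t : Fin k → ℤ) (p q : MvPolynomial (Fin k) ℤ) :
    slice l t (p * q) = slice l t p * slice l t q := map_mul _ _ _

theorem slice_lin {k : ℕ} (l : Fin k) (t : Fin k → ℤ) (c : ℤ) :
    slice l t (X l - C c) = Polynomial.X - Polynomial.C c := by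
  unfold slice
  rw [map_sub, aeval_X, if_pos rfl]
  congr 1
  rw [← algebraMap_eq, AlgHom.commutes]
  rfl

theorem degreeOf_mul_lin {k : ℕ} (l : Fin k) (φ : MvPolynomial (Fin k) ℤ) (hφ : φ ≠ 0) (c : ℤ) :
    degreeOf l (φ * (X l - C c)) = degreeOf l φ + 1 := by
  classical
  have hX : degreeOf l (X l - C c : MvPolynomial (Fin k) ℤ) = 1 := by
    rw [degreeOf_eq_natDegree]
    have h1 : (rename (Equiv.optionSubtypeNe l).symm (X l - C c : MvPolynomial (Fin k) ℤ)) =
        X none - C c := by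
      rw [map_sub, rename_X, rename_C]
      congr 2
      exact Equiv.optionSubtypeNe_symm_self l
    rw [h1, map_sub, optionEquivLeft_X_none, optionEquivLeft_C]
    exact Polynomial.natDegree_X_sub_C _
  have hne : (X l - C c : MvPolynomial (Fin k) ℤ) ≠ 0 := by
    intro h0
    rw [h0, degreeOf_zero] at hX
    omega
  rw [degreeOf_eq_natDegree, map_mul, map_mul, Polynomial.natDegree_mul, ← degreeOf_eq_natDegree,
    ← degreeOf_eq_natDegree, hX]
  · intro h0
    have h1 := EmbeddingLike.map_eq_zero_iff.mp h0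
    exact hφ ((rename_injective _ (Equiv.injective _)).eq_iff' (map_zero _) |>.mp h1)
  · intro h0
    have h1 := EmbeddingLike.map_eq_zero_iff.mp h0
    exact hne ((rename_injective _ (Equiv.injective _)).eq_iff' (map_zero _) |>.mp h1)

/-- the product of a linear polynomial and `X - c₀` -/
theorem loc_lin (R : Polynomial ℤ) (K : ℕ) (c₀ : ℤ) (hdeg : R.natDegree = 1)
    (hsep : (R.map (Int.castRingHom ℚ)).Separable) (hloc : Loc R K)
    (h0 : R.eval c₀ ≠ 0) (hK : R.eval c₀ ∣ (K : ℤ)) :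
    (R * (Polynomial.X - Polynomial.C c₀)).natDegree = 2 ∧
    ((R * (Polynomial.X - Polynomial.C c₀)).map (Int.castRingHom ℚ)).Separable ∧
    Loc (R * (Polynomial.X - Polynomial.C c₀)) K := by
  have hR0 : R ≠ 0 := by
    rintro rfl
    simp at hdeg
  refine ⟨?_, ?_, ?_⟩
  · rw [Polynomial.natDegree_mul hR0 (Polynomial.X_sub_C_ne_zero c₀), hdeg,
      Polynomial.natDegree_X_sub_C]
  · rw [Polynomial.map_mul, Polynomial.map_sub, Polynomial.map_X, Polynomial.map_C]
    apply Polynomial.Separable.mul hsep (Polynomial.separable_X_sub_C)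
    rw [isCoprime_comm]
    apply (Polynomial.irreducible_X_sub_C _).coprime_iff_not_dvd.mpr
    rw [Polynomial.dvd_iff_isRoot]
    intro hr
    apply h0
    have h1 : (R.map (Int.castRingHom ℚ)).eval ((Int.castRingHom ℚ) c₀) = 0 := hr
    rw [Polynomial.eval_map, Polynomial.eval₂_at_apply] at h1
    exact Int.cast_injective (α := ℚ) (by rw [Int.cast_zero]; exact h1)
  · intro p hp hpK
    obtain ⟨h1, h2⟩ := hloc p hp hpK
    have hpr : Prime (p : ℤ) := Nat.prime_iff_prime_int.mp hp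
    refine ⟨?_, ?_⟩
    · rw [Polynomial.leadingCoeff_mul, Polynomial.leadingCoeff_X_sub_C, mul_one]
      exact h1
    · intro c hc hd
      rw [Polynomial.eval_mul, Polynomial.eval_sub, Polynomial.eval_X, Polynomial.eval_C] at hc
      rw [Polynomial.derivative_mul, Polynomial.eval_add, Polynomial.eval_mul, Polynomial.eval_mul,
        Polynomial.eval_sub, Polynomial.eval_X, Polynomial.eval_C, Polynomial.derivative_sub,
        Polynomial.derivative_X, Polynomial.derivative_C, sub_zero, Polynomial.eval_one,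
        mul_one] at hd
      have hsub : (p : ℤ) ∣ c - c₀ → ¬ (p : ℤ) ∣ R.eval c := by
        intro h3 h4
        have h5 : c - c₀ ∣ R.eval c - R.eval c₀ := Polynomial.sub_dvd_eval_sub _ _ _
        have h6 : (p : ℤ) ∣ R.eval c₀ := by
          have h7 := dvd_sub h4 (h3.trans h5)
          rwa [sub_sub_cancel] at h7
        exact hpK (Int.natCast_dvd_natCast.mp (h6.trans hK))
      rcases hpr.dvd_or_dvd hc with h3 | h3
      · have h4 : (p : ℤ) ∣ (Polynomial.derivative R).eval c * (c - c₀) := by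
          have := dvd_sub hd h3
          rwa [add_sub_cancel_right] at this
        rcases hpr.dvd_or_dvd h4 with h5 | h5
        · exact h2 c h3 h5
        · exact hsub h5 h3
      · have h4 : (p : ℤ) ∣ R.eval c := by
          have := dvd_sub hd (Dvd.dvd.mul_left h3 ((Polynomial.derivative R).eval c))
          rwa [add_sub_cancel_left] at this
        exact hsub h3 h4

theorem rdg (hRDA : RdaStmt) (hALM : AlmStmt) (hSLC : SlcStmt) (hCOF : CofStmt) : RdgStmt := by
  intro k W l φ κ ε hW hdeg hκ hκl hε hloc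
  rcases Nat.lt_or_ge (degreeOf l φ) 2 with h2 | h2
  swap
  · have h3 : min (degreeOf l φ) 2 = 2 := min_eq_right h2
    rw [h3]
    have := hRDA k W l φ κ ε hW h2 hκ hκl hε hloc
    simpa using this
  have hd1 : degreeOf l φ = 1 := by omega
  have h3 : min (degreeOf l φ) 2 = 1 := by rw [hd1]; rfl
  rw [h3]
  have hφ0 : φ ≠ 0 := by
    rintro rfl
    rw [degreeOf_zero] at hd1
    omega
  -- the value at `c₀`
  obtain ⟨hcc, hcd, -, hctop, -⟩ := hCOF k l φ
  have hc1 : coefl l 1 φ ≠ 0 := by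
    have := hctop hφ0
    rwa [hd1] at this
  obtain ⟨c₀, hc₀, hκ₀⟩ : ∃ c₀ : ℤ, (c₀ = 0 ∨ c₀ = 1) ∧ coefl l 0 φ + C c₀ * coefl l 1 φ ≠ 0 := by
    by_cases h4 : coefl l 0 φ = 0
    · refine ⟨1, Or.inr rfl, ?_⟩
      rw [h4, zero_add, C_1, one_mul]
      exact hc1
    · refine ⟨0, Or.inl rfl, ?_⟩
      rw [C_0, zero_mul, add_zero]
      exact h4
  set κ₀ := coefl l 0 φ + C c₀ * coefl l 1 φ with hκ₀d
  have hκ₀l : degreeOf l κ₀ = 0 := by
    have h5 := degreeOf_add_le l (coefl l 0 φ) (C c₀ * coefl l 1 φ)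
    have h6 := degreeOf_mul_le l (C c₀) (coefl l 1 φ)
    rw [degreeOf_C, hcd 1] at h6
    rw [hcd 0] at h5
    rw [hκ₀d]
    omega
  have hev : ∀ t : Fin k → ℤ, (slice l t φ).eval c₀ = eval t κ₀ := by
    intro t
    obtain ⟨-, h5, h6, -⟩ := hSLC k l t φ
    rw [hd1] at h6
    rw [Polynomial.eval_eq_sum_range' (n := 2) (by omega), Finset.sum_range_succ,
      Finset.sum_range_one, h5, h5, hκ₀d, map_add, map_mul, eval_C]
    ring
  have hκ' : κ * κ₀ ≠ 0 := mul_ne_zero hκ hκ₀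
  have hκ'l : degreeOf l (κ * κ₀) = 0 := by
    have := degreeOf_mul_le l κ κ₀
    omega
  have hdeg' : degreeOf l (φ * (X l - C c₀)) = 2 := by
    rw [degreeOf_mul_lin l φ hφ0 c₀, hd1]
  have hmain := hRDA k W l (φ * (X l - C c₀)) (κ * κ₀) (ε / 2) hW (by omega) hκ' hκ'l
    (by positivity) (by
      intro t ht
      rw [map_mul] at ht
      have ht1 : eval t κ ≠ 0 := left_ne_zero_of_mul ht
      have ht2 : eval t κ₀ ≠ 0 := right_ne_zero_of_mul ht
      obtain ⟨h5, h6, h7⟩ := hloc t ht1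
      have h8 : Loc (slice l t φ) (eval t (κ * κ₀)).natAbs := by
        intro p hp hpK
        apply h7 p hp
        intro h9
        apply hpK
        rw [map_mul, Int.natAbs_mul]
        exact Dvd.dvd.mul_right h9 _
      obtain ⟨h9, h10, h11⟩ := loc_lin (slice l t φ) _ c₀ (by rw [h5, hd1]) h6 h8
        (by rw [hev]; exact ht2) (by
          rw [hev, Int.dvd_natAbs, map_mul]
          exact Dvd.intro_left _ rfl)
      rw [slice_mul, slice_lin, hdeg']
      exact ⟨h9, h10, h11⟩)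
  obtain ⟨B₁, hB₁⟩ : ∃ B₁ : ℕ, ∀ B : ℕ, B₁ ≤ B → (2 : ℝ) ≤ (B : ℝ) ^ (ε / 2) := by
    have h5 : Filter.Tendsto (fun B : ℕ => (B : ℝ) ^ (ε / 2)) Filter.atTop Filter.atTop :=
      (tendsto_rpow_atTop (by positivity)).comp tendsto_natCast_atTop_atTop
    obtain ⟨B₁, h6⟩ := (Filter.tendsto_atTop.mp h5 2).exists_forall_of_atTop
    exact ⟨B₁, fun B hB => h6 B hB⟩
  refine (hALM k W).2.1 _ _ (max B₁ 1) hmain ?_
  intro B hB t htB hP
  obtain ⟨hP1, hP2, hP3⟩ := hP
  have hB1 : 1 ≤ B := le_trans (le_max_right _ _) hB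
  have hB1' : (1 : ℝ) ≤ B := by exact_mod_cast hB1
  have hB0 : (0 : ℝ) < B := by linarith
  rw [map_mul] at hP1
  have hφt : eval t φ ≠ 0 := by
    rw [map_mul] at hP2
    exact left_ne_zero_of_mul hP2
  have hlin : eval t (X l - C c₀ : MvPolynomial (Fin k) ℤ) = t l - c₀ := by
    rw [map_sub, eval_X, eval_C]
  have hlin0 : t l - c₀ ≠ 0 := by
    rw [map_mul, hlin] at hP2
    exact right_ne_zero_of_mul hP2
  refine ⟨left_ne_zero_of_mul hP1, hφt, ?_⟩
  rw [map_mul, map_mul, hlin, Int.natAbs_mul, Int.natAbs_mul] at hP3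
  have h5 : partRad ((eval t κ).natAbs * (eval t κ₀).natAbs) ((eval t φ).natAbs *
      (t l - c₀).natAbs) ≤ partRad (eval t κ).natAbs (eval t φ).natAbs * (t l - c₀).natAbs :=
    (partRad_mul_le _ _ _ (Int.natAbs_ne_zero.mpr hφt) (Int.natAbs_ne_zero.mpr hlin0)).trans
      (Nat.mul_le_mul_right _ (partRad_anti _ _ _ (Dvd.intro _ rfl)))
  have h6 : (((t l - c₀).natAbs : ℕ) : ℝ) ≤ 2 * (B : ℝ) ^ W l := by
    have h7 := htB l
    have h8 : |t l - c₀| ≤ 2 * (B : ℤ) ^ W l := by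
      have h9 : (1 : ℤ) ≤ (B : ℤ) ^ W l := by
        have : (1 : ℤ) ≤ B := by exact_mod_cast hB1
        exact one_le_pow₀ this
      have h10 := abs_le.mp h7
      rw [abs_le]
      rcases hc₀ with h | h <;> rw [h] <;> constructor <;> linarith [h10.1, h10.2]
    have h9 : (((t l - c₀).natAbs : ℤ)) ≤ 2 * (B : ℤ) ^ W l := by
      rw [Int.natCast_natAbs]
      exact h8
    exact_mod_cast h9
  set Rd : ℝ := (partRad (eval t κ).natAbs (eval t φ).natAbs : ℝ) with hRd
  have hRd0 : 0 ≤ Rd := by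
    rw [hRd]
    positivity
  have h7 : (B : ℝ) ^ ((W l : ℝ) * (2 - ε / 2)) ≤ Rd * (2 * (B : ℝ) ^ W l) := by
    refine hP3.trans ?_
    have h8 : ((partRad ((eval t κ).natAbs * (eval t κ₀).natAbs) ((eval t φ).natAbs *
      (t l - c₀).natAbs) : ℕ) : ℝ) ≤ Rd * (((t l - c₀).natAbs : ℕ) : ℝ) := by
      rw [hRd]
      exact_mod_cast h5
    exact h8.trans (mul_le_mul_of_nonneg_left h6 hRd0)
  have h8 : (B : ℝ) ^ ((W l : ℝ) * (2 - ε / 2)) =
      (B : ℝ) ^ ((W l : ℝ) * (1 - ε)) * (B : ℝ) ^ ((W l : ℝ) * (ε / 2)) * (B : ℝ) ^ W l := by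
    rw [← Real.rpow_natCast (B : ℝ) (W l), ← Real.rpow_add hB0, ← Real.rpow_add hB0]
    congr 1
    ring
  have h9 : (2 : ℝ) ≤ (B : ℝ) ^ ((W l : ℝ) * (ε / 2)) := by
    refine (hB₁ B (le_trans (le_max_left _ _) hB)).trans ?_
    apply Real.rpow_le_rpow_of_exponent_le hB1'
    have : (1 : ℝ) ≤ W l := by exact_mod_cast hW l
    nlinarith
  rw [h8] at h7
  have hBW : 0 < (B : ℝ) ^ W l := by positivity
  have hX0 : 0 < (B : ℝ) ^ ((W l : ℝ) * (1 - ε)) := Real.rpow_pos_of_pos hB0 _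
  have h10 : (B : ℝ) ^ ((W l : ℝ) * (1 - ε)) * (B : ℝ) ^ ((W l : ℝ) * (ε / 2)) ≤ Rd * 2 := by
    have h11 : (B : ℝ) ^ ((W l : ℝ) * (1 - ε)) * (B : ℝ) ^ ((W l : ℝ) * (ε / 2)) * (B : ℝ) ^ W l ≤
        Rd * 2 * (B : ℝ) ^ W l := by
      calc _ ≤ Rd * (2 * (B : ℝ) ^ W l) := h7
        _ = _ := by ring
    exact le_of_mul_le_mul_right h11 hBW
  have h12 : (B : ℝ) ^ ((W l : ℝ) * (1 - ε)) * 2 ≤ Rd * 2 :=
    (mul_le_mul_of_nonneg_left h9 hX0.le).trans h10
  have h13 : (B : ℝ) ^ ((W l : ℝ) * (1 - ε)) ≤ Rd := by linarith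
  simpa using h13

end H80

end Pool.Agent.EVF
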