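import Pool.Agent.EVF.StmtsF

/-! EVF, row RDM: the radical lemma for several polynomials. -/

set_option autoImplicit false

namespace Pool.Agent.EVF.H80

open MvPolynomial Pool.Agent.EVF
open Pool.Agent.RAD (Loc)
open Pool.Agent.Helper5Frey (partRad)

theorem rdm (hLOC : LocStmt) (hBEZ : BezStmt) (hRDA : RdaStmt) (hALM : AlmStmt) : RdmStmt := by
  classical
  intro k W l m φ χ ε hW hirr hdeg hnd hχ hε
  have hdeg1 : ∀ j, 1 ≤ degreeOf l (φ j) := fun j => by have := hdeg j; omega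
  have h1 : ∀ j, ∃ ρ : MvPolynomial (Fin k) ℤ, ρ ≠ 0 ∧ degreeOf l ρ = 0 ∧
      ∀ (t : Fin k → ℤ) (K : ℕ), eval t ρ ≠ 0 → eval t ρ ∣ (K : ℤ) →
      (slice l t (φ j)).natDegree = degreeOf l (φ j) ∧
      ((slice l t (φ j)).map (Int.castRingHom ℚ)).Separable ∧ Loc (slice l t (φ j)) K :=
    fun j => hLOC k l (φ j) (hirr j) (hdeg1 j)
  choose ρ hρ0 hρl hρ using h1
  have h2 : ∀ j, ∃ A B σ : MvPolynomial (Fin k) ℤ, σ ≠ 0 ∧ degreeOf l σ = 0 ∧
      A * φ j + B * χ j = σ := fun j => hBEZ k l (φ j) (χ j) (hirr j) (hdeg1 j) (hχ j)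
  choose A₁ B₁ σ hσ0 hσl hσ using h2
  have h3 : ∀ i j, ∃ A B σ : MvPolynomial (Fin k) ℤ, σ ≠ 0 ∧ degreeOf l σ = 0 ∧
      (i ≠ j → A * φ i + B * φ j = σ) := by
    intro i j
    by_cases hij : i = j
    · refine ⟨0, 0, 1, one_ne_zero, ?_, fun h => absurd hij h⟩
      have := degreeOf_C (1 : ℤ) l
      rwa [C_1] at this
    · obtain ⟨A, B, τ, h4, h5, h6⟩ := hBEZ k l (φ i) (φ j) (hirr i) (hdeg1 i) (hnd i j hij)
      exact ⟨A, B, τ, h4, h5, fun _ => h6⟩
  choose A₂ B₂ τ hτ0 hτl hτ using h3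
  set κ : MvPolynomial (Fin k) ℤ := C 2 * (∏ j, ρ j) * (∏ j, σ j) * ∏ i, ∏ j, τ i j with hκ
  have hC2 : (C 2 : MvPolynomial (Fin k) ℤ) ≠ 0 := by
    rw [Ne, C_eq_zero]
    norm_num
  have hκ0 : κ ≠ 0 := by
    rw [hκ]
    refine mul_ne_zero (mul_ne_zero (mul_ne_zero hC2 ?_) ?_) ?_
    · exact Finset.prod_ne_zero_iff.mpr fun j _ => hρ0 j
    · exact Finset.prod_ne_zero_iff.mpr fun j _ => hσ0 j
    · exact Finset.prod_ne_zero_iff.mpr fun i _ => Finset.prod_ne_zero_iff.mpr fun j _ => hτ0 i j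
  have hmul : ∀ p q : MvPolynomial (Fin k) ℤ, degreeOf l p = 0 → degreeOf l q = 0 →
      degreeOf l (p * q) = 0 := by
    intro p q hp hq
    have := degreeOf_mul_le l p q
    omega
  have hprod : ∀ (s : Finset (Fin m)) (f : Fin m → MvPolynomial (Fin k) ℤ),
      (∀ j, degreeOf l (f j) = 0) → degreeOf l (∏ j ∈ s, f j) = 0 := by
    intro s f hf
    induction s using Finset.induction_on with
    | empty =>
      rw [Finset.prod_empty]
      have := degreeOf_C (1 : ℤ) l
      rwa [C_1] at this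
    | insert a s ha ih =>
      rw [Finset.prod_insert ha]
      exact hmul _ _ (hf a) ih
  have hκl : degreeOf l κ = 0 := by
    rw [hκ]
    refine hmul _ _ (hmul _ _ (hmul _ _ (degreeOf_C 2 l) ?_) ?_) ?_
    · exact hprod _ _ hρl
    · exact hprod _ _ hσl
    · exact hprod _ _ fun i => hprod _ _ fun j => hτl i j
  -- divisibility of the values
  have hdρ : ∀ (t : Fin k → ℤ) j, eval t (ρ j) ∣ eval t κ := by
    intro t j
    apply (MvPolynomial.eval t).map_dvd
    rw [hκ]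
    refine Dvd.dvd.mul_right (Dvd.dvd.mul_right (Dvd.dvd.mul_left ?_ _) _) _
    exact Finset.dvd_prod_of_mem _ (Finset.mem_univ j)
  have hdσ : ∀ (t : Fin k → ℤ) j, eval t (σ j) ∣ eval t κ := by
    intro t j
    apply (MvPolynomial.eval t).map_dvd
    rw [hκ]
    refine Dvd.dvd.mul_right (Dvd.dvd.mul_left ?_ _) _
    exact Finset.dvd_prod_of_mem _ (Finset.mem_univ j)
  have hdτ : ∀ (t : Fin k → ℤ) i j, eval t (τ i j) ∣ eval t κ := by
    intro t i j
    apply (MvPolynomial.eval t).map_dvd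
    rw [hκ]
    refine Dvd.dvd.mul_left ?_ _
    exact (Finset.dvd_prod_of_mem (fun j => τ i j) (Finset.mem_univ j)).trans
      (Finset.dvd_prod_of_mem (fun i => ∏ j, τ i j) (Finset.mem_univ i))
  have hd2 : ∀ t : Fin k → ℤ, (2 : ℤ) ∣ eval t κ := by
    intro t
    rw [hκ]
    simp only [map_mul, eval_C]
    exact Dvd.dvd.mul_right (Dvd.dvd.mul_right (Dvd.dvd.mul_right (dvd_refl _) _) _) _
  set ε' : ℝ := ε / (m + 1) with hε'
  have hε'0 : 0 < ε' := by positivity
  have hall := (hALM k W).2.2 m (fun j B t => eval t κ ≠ 0 ∧ eval t (φ j) ≠ 0 ∧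
    (B : ℝ) ^ ((W l : ℝ) * (2 - ε')) ≤
      (partRad (eval t κ).natAbs (eval t (φ j)).natAbs : ℝ)) (by
    intro j
    apply hRDA k W l (φ j) κ ε' hW (hdeg j) hκ0 hκl hε'0
    intro t ht
    apply hρ j t
    · intro h0
      apply ht
      exact zero_dvd_iff.mp (h0 ▸ hdρ t j)
    · rw [Int.dvd_natAbs]
      exact hdρ t j)
  refine (hALM k W).2.1 _ _ 1 hall ?_
  intro B hB t _ hP
  set K := (eval t κ).natAbs with hK
  set S : Fin m → Finset ℕ := fun j => (eval t (φ j)).natAbs.primeFactors.filter (fun p => ¬ p ∣ K)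
    with hS
  have hmem : ∀ j p, p ∈ S j → p.Prime ∧ (p : ℤ) ∣ eval t (φ j) ∧ ¬ (p : ℤ) ∣ eval t κ := by
    intro j p hp
    rw [hS, Finset.mem_filter] at hp
    refine ⟨Nat.prime_of_mem_primeFactors hp.1, ?_, ?_⟩
    · rw [← Int.dvd_natAbs, Int.natCast_dvd_natCast]
      exact Nat.dvd_of_mem_primeFactors hp.1
    · intro h
      apply hp.2
      rw [hK, ← Int.natCast_dvd_natCast, Int.dvd_natAbs]
      exact h
  refine ⟨Finset.univ.biUnion S, ?_, ?_⟩
  · intro p hp
    rw [Finset.mem_biUnion] at hp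
    obtain ⟨j, -, hj⟩ := hp
    obtain ⟨hp1, hp2, hp3⟩ := hmem j p hj
    refine ⟨hp1, ?_, j, hp2, ?_⟩
    · rintro rfl
      exact hp3 (hd2 t)
    · intro hp4
      apply hp3
      refine dvd_trans ?_ (hdσ t j)
      rw [← hσ j, map_add, map_mul, map_mul]
      exact dvd_add (Dvd.dvd.mul_left hp2 _) (Dvd.dvd.mul_left hp4 _)
  · rw [Finset.prod_biUnion]
    · have hpr : ∀ j, (∏ p ∈ S j, p) = partRad K (eval t (φ j)).natAbs := fun j => rfl
      simp only [hpr]
      rw [Nat.cast_prod]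
      have hB1 : (1 : ℝ) ≤ B := by exact_mod_cast hB
      calc (B : ℝ) ^ ((W l : ℝ) * (2 * m - ε)) ≤ (B : ℝ) ^ (((W l : ℝ) * (2 - ε')) * (m : ℕ)) := by
            apply Real.rpow_le_rpow_of_exponent_le hB1
            have h5 : ε' * m ≤ ε := by
              rw [hε', div_mul_eq_mul_div, div_le_iff₀ (by positivity)]
              nlinarith
            have h6 : (0 : ℝ) ≤ W l := by positivity
            nlinarith
        _ = ∏ _j : Fin m, (B : ℝ) ^ ((W l : ℝ) * (2 - ε')) := by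
            rw [Finset.prod_const, Finset.card_univ, Fintype.card_fin,
              Real.rpow_mul_natCast (by positivity)]
        _ ≤ ∏ j : Fin m, ((partRad K (eval t (φ j)).natAbs : ℕ) : ℝ) := by
            apply Finset.prod_le_prod
            · intro j _
              positivity
            · intro j _
              exact (hP j).2.2
    · intro i _ j _ hij
      rw [Function.onFun, Finset.disjoint_left]
      intro p hpi hpj
      obtain ⟨-, h5, h6⟩ := hmem i p hpi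
      obtain ⟨-, h7, -⟩ := hmem j p hpj
      apply h6
      refine dvd_trans ?_ (hdτ t i j)
      rw [← hτ i j hij, map_add, map_mul, map_mul]
      exact dvd_add (Dvd.dvd.mul_left h5 _) (Dvd.dvd.mul_left h7 _)

end Pool.Agent.EVF.H80
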